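import Mathlib

set_option autoImplicit false

namespace Pool.Agent.H.MP_89b4f4_co

/-- comparability graph of an order that is the intersection of three linear orders -/
def Dim3 {V : Type} (G : SimpleGraph V) : Prop :=
  ∃ P : PartialOrder V, (∀ x y, G.Adj x y ↔ P.lt x y ∨ P.lt y x) ∧
    ∃ L : Fin 3 → LinearOrder V, ∀ x y, P.le x y ↔ ∀ c, (L c).le x y

lemma dim3_of {n : ℕ} {K : Type} [LinearOrder K] (G : SimpleGraph (Fin n)) (f : Fin n → ℕ → K)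
    (h1 : ∀ x y, G.Adj x y → (∀ c < 3, f x c < f y c) ∨ ∀ c < 3, f y c < f x c)
    (h2 : ∀ x y, x ≠ y → ¬G.Adj x y → ∃ c < 3, f x c < f y c) : Dim3 G := by
  let g (x : Fin n) (c : Fin 3) : K ×ₗ Fin n := toLex (f x c, x)
  have i (c) : Function.Injective (g · c) := fun x y h => (Prod.mk.inj (toLex.injective h)).2
  have k {x y} {c : Fin 3} (h : f x c < f y c) : g x c < g y c := Prod.Lex.toLex_lt_toLex.2 (.inl h)
  refine ⟨PartialOrder.lift g fun x y h => i 0 (congrFun h 0), fun x y => ?_,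
    fun c => LinearOrder.lift' _ (i c), fun x y => .rfl⟩
  change _ ↔ g x < g y ∨ g y < g x
  constructor
  · exact fun h => (h1 x y h).imp (fun h => Pi.lt_def.2 ⟨fun c => (k (h c c.2)).le, 0, k (h 0 (by simp))⟩)
      fun h => Pi.lt_def.2 ⟨fun c => (k (h c c.2)).le, 0, k (h 0 (by simp))⟩
  · refine fun h => by_contra fun a => ?_
    have n : x ≠ y := by rintro rfl; simp at h
    obtain ⟨c, c1, c2⟩ := h2 x y n a
    obtain ⟨d, d1, d2⟩ := h2 y x n.symm fun b => a b.symm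
    rcases h with h | h
    exacts [(h.le ⟨d, d1⟩).not_gt (k d2), (h.le ⟨c, c1⟩).not_gt (k c2)]

def tb (c τ t : ℕ) : ℕ := (([[[2, 56, 56, 56, 56, 62, 62, 62, 47, 47], [2, 52, 52, 52, 52, 52, 43, 43, 43, 43],
  [6, 48, 48, 48, 24, 24, 24, 43, 43, 43]], [[2, 2, 2, 62, 62, 62, 48, 48, 48, 48], [2, 2, 2, 66, 66, 72, 72, 72, 52, 52],
  [6, 6, 6, 68, 68, 78, 78, 78, 56, 56]], [[36, 36, 22, 22, 4, 4, 4, 18, 18, 73], [36, 36, 26, 26, 2, 2, 2, 8, 8, 77],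
  [32, 32, 30, 30, 30, 30, 12, 12, 12, 77]]].getD c []).getD τ []).getD t 0

def key (s τ t : ℕ) (h l : ℕ → ℕ) (c : ℕ) : ℕ ×ₗ ℤ ×ₗ ℕ :=
  toLex (10 * s + tb c τ t / 4, toLex ((if tb c τ t % 4 < 2 then -1 else 1) *
    ((if c = 2 then l else h) (if tb c τ t % 2 = 1 then s else s - 1) : ℕ), t % 2))

def rel (m h l h' l' : ℕ) : Prop := l ≤ h ∧ l' ≤ h' ∧ (m = 0 ∧ h < l' ∨ m = 1 ∧ h = h' ∧ l = l' ∨ m = 2 ∧ h' < l ∨
  m = 3 ∧ l < l' ∧ h' < h ∨ m = 4 ∧ l' < l ∧ h < h')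

def oc (m c : ℕ) : ℕ := if m < 3 then m else if (m = 3 ↔ c = 2) then 0 else 2

def slt (a a' σ o e e' : ℕ) : Prop := a < a' ∨ a = a' ∧ (σ < 2 ∧ o = 2 ∨ 2 ≤ σ ∧ o = 0 ∨ o = 1 ∧ e < e')
instance (a a' σ o e e' : ℕ) : Decidable (slt a a' σ o e e') := by unfold slt; infer_instance

def LT1 (δ τ t τ' t' m0 m1 c : ℕ) : Prop :=
  slt (tb c τ t / 4) (10 * δ + tb c τ' t' / 4) (tb c τ t % 4) (oc (if tb c τ t % 2 = 1 then m1 else m0) c) (t % 2) (t' % 2)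
def GT1 (δ τ t τ' t' m0 m1 c : ℕ) : Prop :=
  slt (10 * δ + tb c τ' t' / 4) (tb c τ t / 4) (tb c τ t % 4) (2 - oc (if tb c τ t % 2 = 1 then m1 else m0) c) (t' % 2) (t % 2)
instance (δ τ t τ' t' m0 m1 c : ℕ) : Decidable (LT1 δ τ t τ' t' m0 m1 c) := by unfold LT1; infer_instance
instance (δ τ t τ' t' m0 m1 c : ℕ) : Decidable (GT1 δ τ t τ' t' m0 m1 c) := by unfold GT1; infer_instance

set_option synthInstance.maxSize 2000 in
lemma ties : ∀ c < 3, ∀ τ < 3, ∀ t < 10, tb c τ t < 80 ∧ ∀ τ' < 3, ∀ t' < 10,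
    (tb c τ t / 4 = tb c τ' t' / 4 → tb c τ t = tb c τ' t') ∧
    (tb c τ t / 4 = 10 + tb c τ' t' / 4 → tb c τ t = 41 + tb c τ' t' ∧ tb c τ t % 2 = 1) := by decide +kernel

def Gd (p q : ℕ → Prop) (a : Prop) : Prop :=
  (a → (∀ c < 3, p c) ∨ ∀ c < 3, q c) ∧ (¬a → (∃ c < 3, p c) ∧ ∃ c < 3, q c)

def good (δ τ t τ' t' m0 m1 : ℕ) (a : Prop) : Prop := Gd (LT1 δ τ t τ' t' m0 m1) (GT1 δ τ t τ' t' m0 m1) a
instance (δ τ t τ' t' m0 m1 : ℕ) (a : Prop) [Decidable a] : Decidable (good δ τ t τ' t' m0 m1 a) := by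
  unfold good Gd; infer_instance

lemma oc_rel {m : ℕ} {h l h' l' : ℕ → ℕ} {i : ℕ} (r : rel m (h i) (l i) (h' i) (l' i)) (c : ℕ) :
    oc m c = 0 ∧ (if c = 2 then l else h) i < (if c = 2 then l' else h') i ∨
    oc m c = 1 ∧ (if c = 2 then l else h) i = (if c = 2 then l' else h') i ∨
    oc m c = 2 ∧ (if c = 2 then l' else h') i < (if c = 2 then l else h) i := by
  unfold rel at r
  by_cases e : c = 2 <;> obtain ⟨-, -, ⟨rfl, -⟩ | ⟨rfl, -⟩ | ⟨rfl, -⟩ | ⟨rfl, -⟩ | ⟨rfl, -⟩⟩ := id r <;>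
    simp [oc, e] at r ⊢ <;> omega

lemma link {δ s τ t τ' t' m0 m1 : ℕ} {h l h' l' : ℕ → ℕ} {a : Prop} (b : δ ≤ 1) (b1 : τ < 3) (b2 : t < 10) (b3 : τ' < 3)
    (b4 : t' < 10) (r0 : δ = 0 → rel m0 (h (s - 1)) (l (s - 1)) (h' (s - 1)) (l' (s - 1)))
    (r1 : rel m1 (h s) (l s) (h' s) (l' s)) (g : good δ τ t τ' t' m0 m1 a) :
    Gd (fun c => key s τ t h l c < key (s + δ) τ' t' h' l' c) (fun c => key (s + δ) τ' t' h' l' c < key s τ t h l c) a := by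
  have k : ∀ c < 3, (key s τ t h l c < key (s + δ) τ' t' h' l' c ↔ LT1 δ τ t τ' t' m0 m1 c) ∧
      (key (s + δ) τ' t' h' l' c < key s τ t h l c ↔ GT1 δ τ t τ' t' m0 m1 c) := fun c hc => by
    have := (ties c hc τ b1 t b2).2 τ' b3 t' b4
    have q0 := fun e => oc_rel (r0 e) c
    have q1 := oc_rel r1 c
    clear r0 r1 g
    simp only [key, LT1, GT1, Prod.Lex.toLex_lt_toLex, slt] at *
    generalize tb c τ t = u at *
    generalize tb c τ' t' = v at *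
    generalize (if c = 2 then l else h) = r at *
    generalize (if c = 2 then l' else h') = r' at *
    obtain rfl | rfl : δ = 0 ∨ δ = 1 := by omega
    · by_cases e : u / 4 = v / 4
      · obtain rfl := this.1 e
        have := q0 rfl
        by_cases e1 : u % 2 = 1 <;> by_cases e2 : u % 4 < 2 <;> simp only [e1, e2, if_true, if_false, Nat.add_zero,
          true_and, false_and, false_or] <;> omega
      · omega
    · by_cases e : u / 4 = 10 + v / 4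
      · obtain ⟨rfl, e1⟩ := this.2 e
        have e' : ¬v % 2 = 1 := by omega
        have e3 : (41 + v) % 4 < 2 ↔ v % 4 < 2 := by omega
        by_cases e2 : v % 4 < 2 <;> simp only [e1, e', e2, e3, if_true, if_false, Nat.add_sub_cancel,
          true_and, false_and, false_or] <;> omega
      · omega
  unfold good Gd at *
  grind

def K (a b : ℕ) : Prop :=
  10 * (a / 10) + [9, 11, 11, 13, 13, 13, 13, 13, 13, 19].getD (a % 10) 0 ≤ b ∨ a % 10 = 3 ∧ b = a + 5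
instance (a b : ℕ) : Decidable (K a b) := by unfold K; infer_instance

set_option synthInstance.maxSize 2000 in
lemma g1 : ∀ τ < 3, ∀ t < 10, ∀ τ' < 3, ∀ t' < 10, ∀ m0 ∈ [0, 2], ∀ m1 ∈ [0, 2], ((τ = τ' → m0 = m1) ∧
    (τ = 0 ∧ τ' = 1 → m0 = 0) ∧ (τ = 1 ∧ τ' = 0 → m0 = 2) ∧ (τ = 2 ∧ τ' = 1 → m1 = 0) ∧ (τ = 1 ∧ τ' = 2 → m1 = 2)) →
    good 0 τ t τ' t' m0 m1 (K t t' ∨ K t' t) := by decide +kernel
set_option synthInstance.maxSize 2000 in
lemma g2 : ∀ τ < 3, ∀ t < 10, ∀ t' < 10, t ≠ t' → good 0 τ t τ t' 1 1 (K t t' ∨ K t' t ∨ t' = t + 1 ∨ t = t' + 1) := by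
  decide +kernel
lemma g3 : good 0 1 0 1 1 4 4 True := by decide +kernel
set_option synthInstance.maxSize 2000 in
lemma g4 : ∀ τ < 3, ∀ t < 10, ∀ τ' < 3, ∀ t' < 10, ∀ m ∈ [0, 2], good 1 τ t τ' t' m m (K t (10 + t')) := by
  decide +kernel
set_option synthInstance.maxSize 2000 in
lemma g5 : ∀ τ < 3, ∀ t < 10, ∀ τ' < 3, ∀ t' < 10, (τ' = 2 ↔ τ = 0) →
    good 1 τ t τ' t' 1 1 (K t (10 + t') ∨ t = 9 ∧ t' = 0) := by decide +kernel
set_option synthInstance.maxSize 2000 in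
lemma g6 : ∀ τ' < 2, ∀ t' < 10, good 1 1 9 τ' t' 3 3 (K 9 (10 + t') ∨ t' = 0) := by decide +kernel
set_option synthInstance.maxSize 2000 in
lemma g7 : ∀ τ < 3, ∀ t < 10, good 1 τ t 1 1 4 4 (K t 11) := by decide +kernel

end Pool.Agent.H.MP_89b4f4_co
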