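import Pool.Agent.H.MP_89b4f4_co.A

set_option autoImplicit false

namespace Pool.Agent.H.MP_89b4f4_co

section
variable {Ω : Type} (W : Ω → Prop) (α ω : Ω → ℕ) (N : ℕ)

def σ (j : ℕ) (i : Ω) : ℕ := if N ≤ ω i + j then ω i else N + α i
def Pp (j : ℕ) (i : Ω) : Prop := ∃ x, W x ∧ ω x + j + 1 = N ∧ σ α ω N j i < σ α ω N j x
open Classical in
noncomputable def ty (s : ℕ) (i : Ω) : ℕ :=
  if s % 3 = 0 then (if Pp W α ω N (s / 3) i then 0 else 1)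
  else if s % 3 = 1 then (if ω i + s / 3 + 1 = N then 0 else if Pp W α ω N (s / 3) i then 2 else 1)
  else if ω i + s / 3 + 1 = N then 2 else 1

variable {W α ω N} (a1 : ∀ i j, W i → W j → α i = α j → i = j) (a2 : ∀ i j, W i → W j → ω i = ω j → i = j)
  (a3 : ∀ i, W i → ω i < N)

include a1 a2 a3 in
lemma σ_ne {i j : Ω} (hi : W i) (hj : W j) (n : i ≠ j) (s : ℕ) : σ α ω N s i ≠ σ α ω N s j := by
  have := mt (a1 i j hi hj) n
  have := mt (a2 i j hi hj) n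
  have := a3 i hi
  have := a3 j hj
  unfold σ; split_ifs <;> omega

include a1 a2 a3 in
lemma sched {i j : Ω} (hi : W i) (hj : W j) (n : i ≠ j) (s : ℕ) :
    (ty W α ω N s i = ty W α ω N s j → σ α ω N (s / 3) i < σ α ω N (s / 3) j →
      σ α ω N ((s + 1) / 3) i < σ α ω N ((s + 1) / 3) j) ∧
    (ty W α ω N s i = 0 → ty W α ω N s j = 1 → σ α ω N (s / 3) i < σ α ω N (s / 3) j) ∧
    (ty W α ω N s i = 2 → ty W α ω N s j = 1 → σ α ω N ((s + 1) / 3) i < σ α ω N ((s + 1) / 3) j) := by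
  have k : Pp W α ω N (s / 3) i → ¬Pp W α ω N (s / 3) j → σ α ω N (s / 3) i < σ α ω N (s / 3) j :=
    fun ⟨x, b, c, d⟩ e => d.trans_le (not_lt.1 fun f => e ⟨x, b, c, f⟩)
  have k' : ω i + s / 3 + 1 = N → ¬Pp W α ω N (s / 3) j → σ α ω N (s / 3) i < σ α ω N (s / 3) j :=
    fun c e => (not_lt.1 fun f => e ⟨i, hi, c, f⟩).lt_of_ne (σ_ne a1 a2 a3 hi hj n _)
  have := mt (a2 i j hi hj) n
  have := a3 i hi
  have := a3 j hj
  unfold ty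
  obtain e | e | e : s % 3 = 0 ∨ s % 3 = 1 ∨ s % 3 = 2 := by omega
  · have : (s + 1) / 3 = s / 3 := by omega
    simp only [e, this]; split_ifs <;> grind
  · have : (s + 1) / 3 = s / 3 := by omega
    simp only [e, this]; split_ifs <;> grind
  · have : (s + 1) / 3 = s / 3 + 1 := by omega
    simp only [e, this, σ]; clear k k'
    split_ifs <;> refine ⟨?_, ?_, ?_⟩ <;> intro _ _ <;> first | omega | contradiction

include a2 in
lemma ty_next {i : Ω} (hi : W i) (s : ℕ) : ty W α ω N (s + 1) i = 2 ↔ ty W α ω N s i = 0 := by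
  have k : ω i + s / 3 + 1 = N → ¬Pp W α ω N (s / 3) i := fun a ⟨x, b, c, d⟩ => by
    obtain rfl := a2 _ _ hi b (by omega)
    omega
  unfold ty
  obtain e | e | e : s % 3 = 0 ∨ s % 3 = 1 ∨ s % 3 = 2 := by omega
  · have : (s + 1) / 3 = s / 3 ∧ (s + 1) % 3 = 1 := by omega
    simp only [e, this]; split_ifs <;> grind
  · have : (s + 1) / 3 = s / 3 ∧ (s + 1) % 3 = 2 := by omega
    simp only [e, this]; split_ifs <;> grind
  · have : (s + 1) % 3 = 0 := by omega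
    simp only [e, this]; split_ifs <;> grind

lemma ty_lt (i : Ω) (s : ℕ) : ty W α ω N s i < 3 ∧ ty W α ω N 0 i < 2 ∧ (3 * N ≤ s → ty W α ω N s i = 1) := by
  have k : 3 * N ≤ s → ¬Pp W α ω N (s / 3) i := fun a ⟨x, b, c, d⟩ => by omega
  unfold ty
  refine ⟨?_, ?_, fun h => ?_⟩
  · split_ifs <;> omega
  · split_ifs <;> omega
  · simp only [k h]; split_ifs <;> first | omega | contradiction

end

abbrev V := ℕ × ℕ × ℕ × ℕ

def T1 (x y : V) : Prop := y.1 = x.1 + 1 ∧ (x.2.2.2 ≤ 2 ∧ y.2 = x.2 ∨ x.2.2.2 = 5 ∧ y.2.2.2 ≤ 2 ∧ x.2.1 = y.2.1 ∨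
  x.2.2.2 ≤ 2 ∧ y.2.2.2 = 5 ∧ x.2.2.1 = y.2.2.1)
def Ad (x y : V) : Prop := K x.1 y.1 ∨ K y.1 x.1 ∨ T1 x y ∨ T1 y x
def ok (n : ℕ) (e : ℕ → ℕ → Bool) (L : ℕ) (x : V) : Prop := x.2.1 < n ∧ x.2.2.1 < n ∧ 9 ≤ x.1 ∧ x.1 ≤ L + 1 ∧
  (x.2.1 = x.2.2.1 ∨ x.2.2.2 = 0 ∧ e x.2.1 x.2.2.1 = true) ∧ (x.2.2.2 ≤ 1 ∧ 10 ≤ x.1 ∧ x.1 ≤ L ∨ x.2.2.2 = 2 ∧ x.1 = 10 ∨
    x.2.2.2 = 3 ∨ x.2.2.2 = 4 ∨ x.2.2.2 = 5 ∧ (x.1 = 9 ∨ x.1 = L + 1))

lemma K_gap {a b : ℕ} (h : K a b) : a + 5 ≤ b := by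
  have : ∀ t < 10, t + 5 ≤ [9, 11, 11, 13, 13, 13, 13, 13, 13, 19].getD t 0 := by decide
  have := this (a % 10) (by omega)
  unfold K at h; omega

lemma K_far {a b : ℕ} (h : a / 10 + 2 ≤ b / 10) : K a b := by
  have : ∀ t < 10, [9, 11, 11, 13, 13, 13, 13, 13, 13, 19].getD t 0 < 20 := by decide
  have := this (a % 10) (by omega)
  unfold K; omega

lemma K_sh (s : ℕ) {t : ℕ} (h : t < 10) (b : ℕ) : K (10 * s + t) (10 * s + b) ↔ K t b := by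
  have : (10 * s + t) % 10 = t % 10 := by omega
  unfold K; rw [this]; omega

def WW (n : ℕ) (w : ℕ × ℕ × ℕ) : Prop := w.1 < n ∧ w.2.1 < n ∧ w.2.2 ≤ 2
def al (n : ℕ) (w : ℕ × ℕ × ℕ) : ℕ := w.1 * (3 * n + 2) + (3 * w.2.1 + w.2.2 + 1)
def om (n : ℕ) (w : ℕ × ℕ × ℕ) : ℕ := w.2.1 * (3 * n + 2) + (3 * w.1 + w.2.2 + 1)

lemma blk (B u v : ℕ) : u = v ∨ u < v ∧ u * B + B ≤ v * B ∨ v < u ∧ v * B + B ≤ u * B := by
  rcases lt_trichotomy u v with h | h | h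
  · exact .inr (.inl ⟨h, by nlinarith⟩)
  · exact .inl h
  · exact .inr (.inr ⟨h, by nlinarith⟩)

lemma al_inj (n : ℕ) : ∀ i j, WW n i → WW n j → al n i = al n j → i = j := by
  rintro ⟨u, v, k⟩ ⟨u', v', k'⟩ a b c
  obtain rfl | h := blk (3 * n + 2) u u' <;> simp only [WW, al, Prod.mk.injEq, true_and] at * <;> omega
lemma om_inj (n : ℕ) : ∀ i j, WW n i → WW n j → om n i = om n j → i = j := by
  rintro ⟨u, v, k⟩ ⟨u', v', k'⟩ a b c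
  obtain rfl | h := blk (3 * n + 2) v v' <;> simp only [WW, om, Prod.mk.injEq, true_and] at * <;> omega

noncomputable def tyv (n N : ℕ) (x : V) : ℕ := if x.2.2.2 ≤ 2 then ty (WW n) (al n) (om n) N (x.1 / 10 - 1) x.2 else 1
def rk (n N d : ℕ) (x : V) (i : ℕ) : ℕ := if x.2.2.2 ≤ 2 then σ (al n) (om n) N (i / 3) x.2 else
  if x.2.2.2 = 5 then (if x.1 = 9 then N else 0) + x.2.1 * (3 * n + 2) + d
  else 2 * N + Nat.pair x.1 (Nat.pair x.2.1 x.2.2.2)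
noncomputable def ky (n N : ℕ) (x : V) := key (x.1 / 10) (tyv n N x) (x.1 % 10) (rk n N (3 * n + 1) x) (rk n N 0 x)

end Pool.Agent.H.MP_89b4f4_co
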