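import Pool.Agent.H.MP_89b4f4_co.B

set_option autoImplicit false

namespace Pool.Agent.H.MP_89b4f4_co

variable {n N : ℕ} {e : ℕ → ℕ → Bool}

lemma om_lt (hN : n * (3 * n + 2) ≤ N) : ∀ i, WW n i → om n i < N := by
  rintro ⟨u, v, k⟩ a
  have := blk (3 * n + 2) v n
  simp only [WW, om] at *; omega

lemma σ_lt (hN : n * (3 * n + 2) ≤ N) {i} (a : WW n i) (j : ℕ) : σ (al n) (om n) N j i < 2 * N := by
  have := om_lt hN i a
  have := blk (3 * n + 2) i.1 n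
  unfold σ; split_ifs
  · omega
  · simp only [WW, al] at *; omega

lemma tyv_lt (x : V) : tyv n N x < 3 := by
  unfold tyv; split_ifs
  exacts [(ty_lt _ _).1, by omega]

/-- separated rank intervals -/
def Sep (n N : ℕ) (x y : V) (i m : ℕ) : Prop :=
  m ∈ [0, 2] ∧ rel m (rk n N (3 * n + 1) x i) (rk n N 0 x i) (rk n N (3 * n + 1) y i) (rk n N 0 y i)

lemma rk_lt (hN : n * (3 * n + 2) ≤ N) {L} {x : V} (hx : ok n e L x) (h : x.2.2.2 ≤ 2 ∨ x.2.2.2 = 5) (i : ℕ) :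
    rk n N 0 x i ≤ rk n N (3 * n + 1) x i ∧ rk n N (3 * n + 1) x i < 2 * N := by
  have a3 := blk (3 * n + 2) x.2.1 n
  have := hx.1
  unfold rk
  split_ifs with c
  · exact ⟨le_rfl, σ_lt hN ⟨hx.1, hx.2.1, c⟩ _⟩
  all_goals omega

lemma sep_d (hN : n * (3 * n + 2) ≤ N) {L} {x y : V} (hx : ok n e L x) (hy : ok n e L y) (ne : x ≠ y)
    (h : ¬x.2.2.2 ≤ 2 ∧ (x.2.2.2 ≠ 5 ∨ ¬y.2.2.2 ≤ 2) ∨ ¬y.2.2.2 ≤ 2 ∧ y.2.2.2 ≠ 5) :
    ∃ m, (x.2.2.2 ≤ 2 → m = 0) ∧ (y.2.2.2 ≤ 2 → m = 2) ∧ ∀ i, Sep n N x y i m := by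
  have a1 := rk_lt hN hx
  have a2 := rk_lt hN hy
  simp only [Sep, rel]
  by_cases c1 : x.2.2.2 ≤ 2 ∨ x.2.2.2 = 5 <;> by_cases c2 : y.2.2.2 ≤ 2 ∨ y.2.2.2 = 5
  · clear a1 a2
    obtain ⟨a, u, v, k⟩ := x
    obtain ⟨b, u', v', k'⟩ := y
    obtain ⟨rfl, rfl⟩ : k = 5 ∧ k' = 5 := by dsimp only at h c1 c2; omega
    have a3 := blk (3 * n + 2) u n
    have a4 := blk (3 * n + 2) u' n
    have a5 := blk (3 * n + 2) u u'
    simp only [ok, ne_eq, Prod.mk.injEq] at hx hy ne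
    have : u < n ∧ u' < n ∧ (u = u' → (a = 9 ↔ ¬b = 9)) := by grind
    clear hx hy ne h c1 c2
    refine ⟨if (if a = 9 then N else 0) + u * (3 * n + 2) < (if b = 9 then N else 0) + u' * (3 * n + 2) then 0 else 2,
      by simp, by simp, fun i => ?_⟩
    simp only [rk]
    split_ifs <;> simp <;> omega
  · refine ⟨0, by simp, by omega, fun i => ?_⟩
    have := a1 c1 i
    rw [not_or] at c2
    simp [rk.eq_1 _ _ _ y, c2]; omega
  · refine ⟨2, by omega, by simp, fun i => ?_⟩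
    have := a2 c2 i
    rw [not_or] at c1
    simp [rk.eq_1 _ _ _ x, c1]; omega
  · have : Nat.pair x.1 (Nat.pair x.2.1 x.2.2.2) ≠ Nat.pair y.1 (Nat.pair y.2.1 y.2.2.2) := by
      simp only [ne_eq, Nat.pair_eq_pair, Prod.ext_iff, ok] at *; omega
    refine ⟨if Nat.pair x.1 (Nat.pair x.2.1 x.2.2.2) < Nat.pair y.1 (Nat.pair y.2.1 y.2.2.2) then 0 else 2,
      by omega, by omega, fun i => ?_⟩
    rw [not_or] at c1 c2
    simp only [rk, c1, c2, if_false]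
    split_ifs <;> simp <;> omega

lemma Gd.cg {p q : ℕ → Prop} {a b : Prop} (h : Gd p q a) (e : b ↔ a) : Gd p q b := by rwa [propext e]

def Goal (n N : ℕ) (x y : V) := Gd (fun c => ky n N x c < ky n N y c) (fun c => ky n N y c < ky n N x c) (Ad x y)

lemma fin {x y : V} {δ} (d1 : δ ≤ 1) (d2 : y.1 / 10 = x.1 / 10 + δ) (le : x.1 ≤ y.1) (m0 m1 : ℕ) {a : Prop}
    (r0 : δ = 0 → rel m0 (rk n N (3 * n + 1) x (x.1 / 10 - 1)) (rk n N 0 x (x.1 / 10 - 1))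
      (rk n N (3 * n + 1) y (x.1 / 10 - 1)) (rk n N 0 y (x.1 / 10 - 1)))
    (r1 : rel m1 (rk n N (3 * n + 1) x (x.1 / 10)) (rk n N 0 x (x.1 / 10)) (rk n N (3 * n + 1) y (x.1 / 10))
      (rk n N 0 y (x.1 / 10))) (g : good δ (tyv n N x) (x.1 % 10) (tyv n N y) (y.1 % 10) m0 m1 a)
    (h : (K (x.1 % 10) (10 * δ + y.1 % 10) ∨ T1 x y) ↔ a) : Goal n N x y := by
  have k1 : K x.1 y.1 ↔ K (x.1 % 10) (10 * δ + y.1 % 10) := by
    rw [← K_sh (x.1 / 10) (t := x.1 % 10) (by omega)]; congr! 1 <;> omega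
  have k2 : ¬K y.1 x.1 := fun h => by have := K_gap h; omega
  have nt' : ¬T1 y x := fun h => by have := h.1; omega
  unfold Goal ky
  rw [d2]
  exact (link d1 (tyv_lt x) (by omega) (tyv_lt y) (by omega) r0 r1 g).cg (by simp [Ad, k1, k2, nt', ← h])

lemma sp {x y : V} {δ} (d1 : δ ≤ 1) (d2 : y.1 / 10 = x.1 / 10 + δ) (le : x.1 ≤ y.1) (m0 m1 : ℕ)
    (r0 : δ = 0 → Sep n N x y (x.1 / 10 - 1) m0) (r1 : Sep n N x y (x.1 / 10) m1) (nt : ¬T1 x y)
    (h : δ = 0 → (tyv n N x = tyv n N y → m0 = m1) ∧ (tyv n N x = 0 ∧ tyv n N y = 1 → m0 = 0) ∧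
        (tyv n N x = 1 ∧ tyv n N y = 0 → m0 = 2) ∧ (tyv n N x = 2 ∧ tyv n N y = 1 → m1 = 0) ∧
        (tyv n N x = 1 ∧ tyv n N y = 2 → m1 = 2)) : Goal n N x y := by
  obtain rfl | rfl : δ = 0 ∨ δ = 1 := by omega
  · have : ¬K (y.1 % 10) (x.1 % 10) := fun h => by have := K_gap h; omega
    exact fin d1 d2 le m0 m1 (fun a => (r0 a).2) r1.2 (g1 _ (tyv_lt x) _ (by omega) _ (tyv_lt y) _ (by omega) _
      (r0 rfl).1 _ r1.1 (h rfl)) (by simp [nt, this])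
  · exact fin d1 d2 le m1 m1 (by simp) r1.2 (g4 _ (tyv_lt x) _ (by omega) _ (tyv_lt y) _ (by omega) _ r1.1)
      (by simp [nt])

section
variable (hN : n * (3 * n + 2) ≤ N) {a b u v k u' v' k' δ : ℕ} (d1 : δ ≤ 1) (d2 : b / 10 = a / 10 + δ) (le : a ≤ b)
include d1 d2 le

lemma ww1 (w1 : WW n (u, v, k)) (ha : 10 ≤ a) (ne : a ≠ b) : Goal n N (a, u, v, k) (b, u, v, k) := by
  have c1 : k ≤ 2 := w1.2.2
  have r : ∀ i, rel 1 (rk n N (3 * n + 1) (a, u, v, k) i) (rk n N 0 (a, u, v, k) i)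
    (rk n N (3 * n + 1) (b, u, v, k) i) (rk n N 0 (b, u, v, k) i) := fun i => by simp [rel, rk, c1]
  obtain rfl | rfl : δ = 0 ∨ δ = 1 := by omega
  · have k3 : ¬K (b % 10) (a % 10) := fun h => by have := K_gap h; omega
    refine fin d1 d2 le 1 1 (fun _ => r _) (r _) (by
      simpa only [tyv, c1, if_true, d2, Nat.add_zero] using
        g2 _ (ty_lt _ _).1 (a % 10) (by omega) (b % 10) (by omega) (by omega)) ?_
    simp [T1, k3, c1]; grind
  · refine fin d1 d2 le 1 1 (fun _ => r _) (r _) (g5 _ (tyv_lt _) _ (by omega) _ (tyv_lt _) _ (by omega) ?_) ?_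
    · have := ty_next (α := al n) (N := N) (om_inj n) w1 (a / 10 - 1)
      have e : a / 10 - 1 + 1 = a / 10 := by omega
      simpa only [tyv, c1, if_true, d2, Nat.add_sub_cancel, e] using this
    · simp [T1, c1]; grind

include hN
lemma ww2 (w1 : WW n (u, v, k)) (w2 : WW n (u', v', k')) (ha : 10 ≤ a) (c : (u, v, k) ≠ (u', v', k')) :
    Goal n N (a, u, v, k) (b, u', v', k') := by
  have c1 : k ≤ 2 := w1.2.2
  have c2 : k' ≤ 2 := w2.2.2
  have s1 := sched (al_inj n) (om_inj n) (om_lt hN) w1 w2 c (a / 10 - 1)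
  have s2 := sched (al_inj n) (om_inj n) (om_lt hN) w2 w1 (Ne.symm c) (a / 10 - 1)
  have s3 := σ_ne (al_inj n) (om_inj n) (om_lt hN) w1 w2 c
  have e : a / 10 - 1 + 1 = a / 10 := by omega
  rw [e] at s1 s2
  have r : ∀ i, Sep n N (a, u, v, k) (b, u', v', k') i
      (if σ (al n) (om n) N (i / 3) (u, v, k) < σ (al n) (om n) N (i / 3) (u', v', k') then 0 else 2) := fun i => by
    have := s3 (i / 3)
    clear s1 s2
    simp only [Sep, rel, rk, c1, c2, if_true]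
    split_ifs <;> simp <;> omega
  refine sp d1 d2 le _ _ (fun _ => r _) (r _) (by clear s1 s2; simp only [T1]; grind) fun d => ?_
  have := s3 ((a / 10 - 1) / 3)
  have := s3 (a / 10 / 3)
  simp only [tyv, c1, c2, if_true, d2, d, Nat.add_zero]
  clear r e d2 le d1 s3 hN
  split_ifs <;> grind

lemma pw (w2 : WW n (u', v', k')) (ha : a = 9) (hb : 10 ≤ b) : Goal n N (a, u, u, 5) (b, u', v', k') := by
  have c2 : k' ≤ 2 := w2.2.2
  have : v' < n := w2.2.1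
  obtain rfl : δ = 1 := by omega
  subst ha
  have r : σ (al n) (om n) N 0 (u', v', k') = N + al n (u', v', k') := if_neg (by have := om_lt hN _ w2; omega)
  have := blk (3 * n + 2) u u'
  by_cases c : u = u'
  · subst c
    refine fin d1 d2 le 3 3 (by simp) ?_ (by
      simpa [tyv, c2, d2] using g6 _ (ty_lt (u, v', k') 0).2.1 (b % 10) (by omega)) ?_
    · simp [rel, rk, c2, r, al]; omega
    · simp [T1, c2]; grind
  · refine sp d1 d2 le 0 (if u < u' then 0 else 2) (by simp) ?_ (by simp [T1, c]) (by simp)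
    simp only [Sep, rel, rk, c2, r, al]; split_ifs <;> simp <;> omega

omit hN in
lemma wq (w1 : WW n (u, v, k)) (ha : a ≤ 30 * N + 10) (hb : b = 30 * N + 11) : Goal n N (a, u, v, k) (b, u', u', 5) := by
  have c1 : k ≤ 2 := w1.2.2
  have : u < n := w1.1
  have t1 := ty_lt (W := WW n) (α := al n) (ω := om n) (N := N) (u, v, k) (a / 10 - 1)
  have r : ∀ i, 3 * N ≤ i → σ (al n) (om n) N (i / 3) (u, v, k) = om n (u, v, k) := fun i h => if_pos (by omega)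
  have r1 := r (a / 10) (by omega)
  have r0 := fun d : δ = 0 => r (a / 10 - 1) (by omega)
  have := blk (3 * n + 2) v u'
  have e2 : b % 10 = 1 := by omega
  have e3 : b ≠ 9 := by omega
  by_cases c : v = u'
  · subst c
    obtain rfl | rfl : δ = 0 ∨ δ = 1 := by omega
    · refine fin d1 d2 le 4 4 (a := True) (fun d => ?_) ?_ ?_ (by simp [T1, c1]; omega)
      · simp [rel, rk, c1, r0 d, om, e3]; omega
      · simp [rel, rk, c1, r1, om, e3]; omega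
      · have e1 : a % 10 = 0 := by omega
        simpa [tyv, c1, t1.2.2 (by omega), e1, e2] using g3
    · refine fin d1 d2 le 4 4 (a := K (a % 10) 11) (by simp) ?_
        (by simpa [tyv, e2, c1] using g7 _ t1.1 (a % 10) (by omega)) ?_
      · simp [rel, rk, c1, r1, om, e3]; omega
      · have : b ≠ a + 1 := by omega
        simp [T1, e2, this]
  · refine sp d1 d2 le (if v < u' then 0 else 2) (if v < u' then 0 else 2) (fun d => ?_) ?_ (by simp [T1, c]; omega)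
      fun d => ?_
    · simp only [Sep, rel, rk, c1, r0 d, om, e3, if_false]; split_ifs <;> simp <;> omega
    · simp only [Sep, rel, rk, c1, r1, om, e3, if_false]; split_ifs <;> simp <;> omega
    · simp [tyv, c1, t1.2.2 (by omega)]

end

lemma pair (hN : n * (3 * n + 2) ≤ N) {x y : V} (hx : ok n e (30 * N + 10) x) (hy : ok n e (30 * N + 10) y)
    (ne : x ≠ y) (le : x.1 ≤ y.1) : Goal n N x y := by
  by_cases far : x.1 / 10 + 2 ≤ y.1 / 10
  · refine ⟨fun _ => .inl fun c hc => Prod.Lex.toLex_lt_toLex.2 (.inl ?_), fun h => (h (.inl (K_far far))).elim⟩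
    have := (ties c hc _ (tyv_lt (n := n) (N := N) x) (x.1 % 10) (by omega)).1
    dsimp only; omega
  obtain ⟨δ, d1, d2⟩ : ∃ δ ≤ 1, y.1 / 10 = x.1 / 10 + δ := ⟨y.1 / 10 - x.1 / 10, by omega, by omega⟩
  by_cases h : ¬x.2.2.2 ≤ 2 ∧ (x.2.2.2 ≠ 5 ∨ ¬y.2.2.2 ≤ 2) ∨ ¬y.2.2.2 ≤ 2 ∧ y.2.2.2 ≠ 5
  · obtain ⟨m, m1, m2, m3⟩ := sep_d hN hx hy ne h
    refine sp d1 d2 le m m (fun _ => m3 _) (m3 _) (by unfold T1; grind) fun _ => ?_
    unfold tyv; grind
  obtain ⟨a, u, v, k⟩ := x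
  obtain ⟨b, u', v', k'⟩ := y
  simp only [ok] at hx hy h le d2
  by_cases c1 : k ≤ 2 <;> by_cases c2 : k' ≤ 2
  · by_cases c : (u, v, k) = (u', v', k')
    · obtain ⟨rfl, rfl, rfl⟩ := c
      exact ww1 d1 d2 le ⟨hx.1, hx.2.1, c1⟩ (by omega) fun h => ne (by rw [h])
    · exact ww2 hN d1 d2 le ⟨hx.1, hx.2.1, c1⟩ ⟨hy.1, hy.2.1, c2⟩ (by omega) c
  · obtain ⟨rfl, rfl, a2, a3⟩ : k' = 5 ∧ u' = v' ∧ b = 30 * N + 11 ∧ a ≤ 30 * N + 10 := by grind
    exact wq d1 d2 le ⟨hx.1, hx.2.1, c1⟩ a3 a2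
  · obtain ⟨rfl, rfl, a2, a3⟩ : k = 5 ∧ u = v ∧ a = 9 ∧ 10 ≤ b := by grind
    exact pw hN d1 d2 le ⟨hy.1, hy.2.1, c2⟩ a2 a3
  · omega

end Pool.Agent.H.MP_89b4f4_co
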