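import Pool.Agent.H.MP_89b4f4_co.B

set_option autoImplicit false

namespace Pool.Agent.H.MP_89b4f4_co

variable {n n' L : ℕ} {e e' : ℕ → ℕ → Bool}

def T (x y : V) : Prop := T1 x y ∨ T1 y x
def nd (x : V) : Prop := x.2.2.2 ≠ 3 ∧ x.2.2.2 ≠ 4
def nb1 (L : ℕ) (x : V) : V := if x.2.2.2 = 5 then (if x.1 = 9 then 10 else L, x.2.1, x.2.1, 0) else
  if x.1 = 10 then (9, x.2.1, x.2.1, 5) else (x.1 - 1, x.2)
def nb2 (L : ℕ) (x : V) : V := if x.2.2.2 = 5 then (if x.1 = 9 then 10 else L, x.2.1, x.2.1, 1) else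
  if x.2.2.2 = 2 then (9, x.2.1, x.2.1, 5) else if x.1 = L then (L + 1, x.2.2.1, x.2.2.1, 5) else (x.1 + 1, x.2)

lemma nb (hL : 12 ≤ L) {x : V} (hx : ok n e L x) (h : nd x) : ok n e L (nb1 L x) ∧ ok n e L (nb2 L x) ∧
    T x (nb1 L x) ∧ T x (nb2 L x) ∧ (nb1 L x = nb2 L x → x.2.2.2 = 2) ∧ (10 ≤ x.1 → (nb1 L x).1 + 1 = x.1) := by
  obtain ⟨a, u, v, k⟩ := x
  simp only [nb1, nb2, nd, ok, T, T1] at *
  split_ifs <;> grind

lemma T.nd {x y : V} (h : T x y) : nd x ∧ nd y ∧ (x.1 = y.1 + 1 ∨ y.1 = x.1 + 1) := by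
  simp only [T, T1, MP_89b4f4_co.nd, Prod.ext_iff] at *; omega

lemma no_twin (hL : 12 ≤ L) {x y : V} (hx : ok n e L x) (hy : ok n e L y) (na : nd x) (nb' : nd y)
    (h : ∀ z, ok n e L z → (T x z ↔ T y z)) : x = y := by
  obtain ⟨a1, a2, a3, a4, -⟩ := nb hL hx na
  obtain ⟨b1, b2, b3, b4, -⟩ := nb hL hy nb'
  have c1 := (h _ a1).1 a3
  have c2 := (h _ a2).1 a4
  have c3 := (h _ b1).2 b3
  have c4 := (h _ b2).2 b4
  clear h a1 a2 a3 a4 b1 b2 b3 b4
  obtain ⟨a, u, v, k⟩ := x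
  obtain ⟨b, u', v', k'⟩ := y
  have : (k ≤ 1 ∧ 10 ≤ a ∧ a ≤ L ∨ k = 2 ∧ a = 10 ∧ u = v ∨ k = 5 ∧ (a = 9 ∨ a = L + 1) ∧ u = v) ∧
    (k' ≤ 1 ∧ 10 ≤ b ∧ b ≤ L ∨ k' = 2 ∧ b = 10 ∧ u' = v' ∨ k' = 5 ∧ (b = 9 ∨ b = L + 1) ∧ u' = v') := by
    simp only [ok, nd] at *; grind
  clear hx hy na nb'
  simp only [nb1, nb2, T, T1, Prod.mk.injEq] at *
  split_ifs at * <;> grind

def XG (n : ℕ) (e : ℕ → ℕ → Bool) (L : ℕ) : SimpleGraph {x // ok n e L x} where
  Adj x y := Ad x.1 y.1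
  symm := ⟨fun x y h => by unfold Ad at *; tauto⟩
  loopless := ⟨fun x h => by have := @K_gap x.1.1 x.1.1; simp only [Ad, T1] at h; grind⟩

lemma thin (hL : 12 ≤ L) (x y : {x // ok n e L x}) : T x.1 y.1 ↔ (XG n e L).Adj x y ∧ ¬∃ p q, p ≠ q ∧
    (∀ z, (XG n e L).Adj p z ↔ (XG n e L).Adj q z) ∧ (XG n e L).Adj p y ∧ ∀ z, (XG n e L).Adj p z → (XG n e L).Adj x z := by
  let d (x : {x // ok n e L x}) (k : ℕ) (h : k = 3 ∨ k = 4) : {x // ok n e L x} :=
    ⟨(x.1.1, x.1.2.1, x.1.2.1, k), by have := x.2; simp only [ok] at *; grind⟩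
  have ad (x y : {x // ok n e L x}) : (XG n e L).Adj x y ↔ (K x.1.1 y.1.1 ∨ K y.1.1 x.1.1) ∨ T x.1 y.1 := or_assoc.symm
  have hd (x y k h) : (XG n e L).Adj y (d x k h) ↔ K y.1.1 x.1.1 ∨ K x.1.1 y.1.1 := by
    rw [ad, or_iff_left fun a => by have := a.nd.2.1; simp only [nd, d] at this; omega]
  have gap {a b : ℕ} (h : K a b ∨ K b a) : a + 5 ≤ b ∨ b + 5 ≤ a := h.imp K_gap K_gap
  constructor
  · refine fun h => ⟨(ad _ _).2 (.inr h), fun ⟨p, q, a, b, c, f⟩ => a (Subtype.ext ?_)⟩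
    have h1 : T p.1 y.1 := ((ad _ _).1 c).resolve_left fun k => by
      have := gap ((hd y x 3 (by simp)).1 (f _ ((hd _ _ _ (by simp)).2 k)))
      have := h.nd; omega
    have h2 : T q.1 y.1 := ((ad _ _).1 ((b _).1 c)).resolve_left fun k => by
      have := gap ((hd y p 3 (by simp)).1 ((b _).2 ((hd _ _ _ (by simp)).2 k)))
      have := h1.nd; omega
    have := h1.nd
    have := h2.nd
    refine no_twin hL p.2 q.2 h1.nd.1 h2.nd.1 fun z hz => ⟨fun k => ?_, fun k => ?_⟩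
    · exact ((ad q ⟨z, hz⟩).1 ((b _).1 ((ad _ _).2 (.inr k)))).resolve_left fun m => by
        have := gap m; have := k.nd; dsimp only at *; omega
    · exact ((ad p ⟨z, hz⟩).1 ((b _).2 ((ad _ _).2 (.inr k)))).resolve_left fun m => by
        have := gap m; have := k.nd; dsimp only at *; omega
  · refine fun ⟨a, b⟩ => ((ad _ _).1 a).resolve_left fun k => b ⟨d x 3 (by simp), d x 4 (by simp), by simp [d],
      fun z => ?_, ((hd _ _ _ (by simp)).2 k.symm).symm, fun z c => (ad _ _).2 (.inl ((hd _ _ _ (by simp)).1 c.symm).symm)⟩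
    rw [SimpleGraph.adj_comm, hd _ _ _ (by simp), SimpleGraph.adj_comm, hd _ _ _ (by simp)]

def Is (n : ℕ) (e : ℕ → ℕ → Bool) (n' : ℕ) (e' : ℕ → ℕ → Bool) (L : ℕ) (F F' : V → V) : Prop :=
  ∀ x, ok n e L x → ok n' e' L (F x) ∧ F' (F x) = x ∧ ∀ y, ok n e L y → (T (F x) (F y) ↔ T x y)

open Classical in
noncomputable def raw (φ : XG n e L ≃g XG n' e' L) (x : V) : V := if h : ok n e L x then (φ ⟨x, h⟩).1 else x

lemma is_raw (hL : 12 ≤ L) (φ : XG n e L ≃g XG n' e' L) : Is n e n' e' L (raw φ) (raw φ.symm) := fun x hx => by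
  refine ⟨by simpa [raw, hx] using (φ _).2, by simp [raw, hx, (φ ⟨x, hx⟩).2], fun y hy => ?_⟩
  simp only [raw, hx, hy, dif_pos]
  rw [thin hL, thin hL ⟨x, hx⟩ ⟨y, hy⟩]
  simp only [φ.surjective.exists, φ.surjective.forall, φ.map_rel_iff, ne_eq, EmbeddingLike.apply_eq_iff_eq]

variable {F F' : V → V}

lemma leaf (hL : 12 ≤ L) {x : V} (hx : ok n e L x) :
    (∃ y, ok n e L y ∧ T x y ∧ ∀ z, ok n e L z → T y z → z = x) ↔ x.1 = 9 ∧ nd x := by
  constructor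
  · rintro ⟨y, a, b, c⟩
    obtain ⟨a1, a2, a3, a4, a5, -⟩ := nb hL a b.nd.2.1
    have h := a5 ((c _ a1 a3).trans (c _ a2 a4).symm)
    rw [← c _ a2 a4]
    simp [nb2, h, nd]
  · intro h
    refine ⟨(10, x.2.1, x.2.1, 2), ?_, ?_, fun z a b => ?_⟩ <;> simp only [ok, T, T1, nd, Prod.ext_iff] at * <;> grind

lemma lay (hL : 12 ≤ L) (j : ℕ) : ∀ {n e n' e' F F'}, Is n e n' e' L F F' → Is n' e' n e L F' F → ∀ x, ok n e L x →
    nd x → x.1 ≤ 9 + j → (F x).1 = x.1 ∧ nd (F x) := by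
  induction j with
  | zero =>
    intro n e n' e' F F' a b x hx h k
    have k : x.1 = 9 := by have := hx.2.2.1; omega
    obtain ⟨y, c, d, f⟩ := (leaf hL hx).2 ⟨k, h⟩
    rw [k]
    refine (leaf hL (a x hx).1).1 ⟨F y, (a y c).1, ((a x hx).2.2 y c).2 d, fun z g m => ?_⟩
    rw [← f (F' z) (b z g).1 (((a y c).2.2 _ (b z g).1).1 (by rwa [(b z g).2.1])), (b z g).2.1]
  | succ j ih =>
    intro n e n' e' F F' a b x hx h k
    refine (Nat.lt_or_ge (9 + j) x.1).elim (fun m => ?_) (ih a b x hx h)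
    obtain ⟨a1, -, a3, -, -, a4⟩ := nb hL hx h
    have := a4 (by omega)
    have c := (((a x hx).2.2 _ a1).2 a3).nd
    have := (ih a b _ a1 a3.nd.2.1 (by omega)).1
    have := fun k => (ih b a _ (a x hx).1 c.1 k).1
    rw [(a x hx).2.1] at this
    exact ⟨by omega, c.1⟩

lemma wire (hL : 12 ≤ L) (a : Is n e n' e' L F F') (b : Is n' e' n e L F' F) {u v k : ℕ} (hx : ok n e L (10, u, v, k))
    (hk : k ≤ 1) : (F (10, u, v, k)).2.1 = (F (9, u, u, 5)).2.1 ∧ (F (10, u, v, k)).2.2.1 = (F (L + 1, v, v, 5)).2.1 ∧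
      (F (10, u, v, k)).2.2.2 ≤ 1 ∧ (F (10, u, v, k)).1 = 10 := by
  have l := fun x hx h => lay hL x.1 a b x hx h (by omega)
  have o : ∀ j, 10 + j ≤ L → ok n e L (10 + j, u, v, k) := fun j h => by simp only [ok] at *; grind
  have d : ∀ j, nd (j, u, v, k) := fun j => by simp only [nd]; omega
  have w : ∀ j, 10 + j ≤ L → (F (10 + j, u, v, k)).2 = (F (10, u, v, k)).2 := fun j => by
    induction j with
    | zero => simp
    | succ j ih =>
      intro h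
      have h1 := ((a _ (o j (by omega))).2.2 _ (o _ h)).2 (.inl (by simp [T1]; omega))
      have h2 := l _ (o j (by omega)) (d _)
      have h3 := l _ (o _ h) (d _)
      have h4 := (a _ (o _ h)).1
      have h5 := (a _ (o j (by omega))).1
      rw [← ih (by omega)]
      simp only [ok, T, T1] at *
      grind
  have p : ok n e L (9, u, u, 5) := by simp only [ok] at *; grind
  have q : ok n e L (L + 1, v, v, 5) := by simp only [ok] at *; grind
  have w1 := w (L - 10) (by omega)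
  have o1 := o (L - 10) (by omega)
  rw [show 10 + (L - 10) = L by omega] at w1 o1
  have h1 := ((a _ p).2.2 _ hx).2 (.inl (by simp [T1]; omega))
  have h2 := ((a _ o1).2.2 _ q).2 (.inl (by simp [T1]; omega))
  have l1 := l _ p (by simp [nd])
  have l2 := l _ q (by simp [nd])
  have l3 := l _ hx (d _)
  have l4 := l _ o1 (d _)
  have := (a _ p).1
  have := (a _ q).1
  have := (a _ o1).1
  clear l o d w a b p q hx
  simp only [ok, T, T1, nd, Prod.ext_iff] at *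
  grind

lemma half (hL : 12 ≤ L) (a : Is n e n' e' L F F') (b : Is n' e' n e L F' F) :
    (∀ u < n, (F (9, u, u, 5)).2.1 < n' ∧ (F' (9, (F (9, u, u, 5)).2.1, (F (9, u, u, 5)).2.1, 5)).2.1 = u) ∧
    ∀ u < n, ∀ v < n, e u v = true →
      (F (9, u, u, 5)).2.1 = (F (9, v, v, 5)).2.1 ∨ e' (F (9, u, u, 5)).2.1 (F (9, v, v, 5)).2.1 = true := by
  refine ⟨fun u h => ?_, fun u h v h' k => ?_⟩
  · have p : ok n e L (9, u, u, 5) := by simp only [ok]; grind
    have := lay hL 0 a b _ p (by simp [nd]) le_rfl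
    obtain ⟨c, d, -⟩ := a _ p
    have : F (9, u, u, 5) = (9, (F (9, u, u, 5)).2.1, (F (9, u, u, 5)).2.1, 5) := by
      simp only [ok, nd, Prod.ext_iff] at *; grind
    exact ⟨c.1, by rw [← this, d]⟩
  · have p : ∀ k ≤ 1, ok n e L (10, v, v, k) := fun k h => by simp only [ok]; grind
    have q : ok n e L (10, u, v, 0) := by simp only [ok]; grind
    have h0 := wire hL a b (p 0 (by simp)) (by simp)
    have h1 := wire hL a b (p 1 le_rfl) le_rfl
    have h2 := wire hL a b q (by simp)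
    have c0 := a _ (p 0 (by simp))
    have c1 := a _ (p 1 le_rfl)
    have : F (10, v, v, 0) ≠ F (10, v, v, 1) := fun m => by simpa [← m, c0.2.1] using c1.2.1
    replace c0 := c0.1.2.2.2.2.1
    replace c1 := c1.1.2.2.2.2.1
    have c2 := (a _ q).1.2.2.2.2.1
    simp only [ne_eq, Prod.ext_iff] at this
    grind

end Pool.Agent.H.MP_89b4f4_co
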