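import Pool.Agent.H.MP_89b4f4_co.C
import Pool.Agent.H.MP_89b4f4_co.D
import Pool.Agent.Lib.lead.CXBase

set_option autoImplicit false

namespace Pool.Agent.H.MP_89b4f4_co
open Pool.Agent.Lib.CX

instance (n e L x) : Decidable (ok n e L x) := by unfold ok; infer_instance
instance (x y) : Decidable (T1 x y) := by unfold T1; infer_instance
instance (x y) : Decidable (Ad x y) := by unfold Ad; infer_instance

def vs (g : Gr) (L : ℕ) : List V :=
  (List.range (L + 2) ×ˢ List.range g.n ×ˢ List.range g.n ×ˢ List.range 6).filter (ok g.n g.adjB L ·)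
def red (g : Gr) (L : ℕ) : Gr := mkGr (vs g L) ((vs g L ×ˢ vs g L).filter fun e => Ad e.1 e.2)
def len (a : Gr × Gr) : ℕ := 30 * ((a.1.n + a.2.n) * (3 * (a.1.n + a.2.n) + 2) + 1) + 10

set_option synthInstance.maxSize 2000 in
lemma pt_red {g : Gr × Gr → Gr} (h : PT g) : PT fun a => red (g a) (len a) := by
  have h0 : PT fun a : V × V => decide (T1 a.1 a.2) := by unfold T1; fun_prop
  have h1 : PT fun a : ℕ × ℕ => decide (K a.1 a.2) := by unfold K; fun_prop
  have h2 : PT fun a : V × V => decide (Ad a.1 a.2) :=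
    PT.decide_or (h1.comp (g := fun a : V × V => (a.1.1, a.2.1)) (by fun_prop))
      (PT.decide_or (h1.comp (g := fun a : V × V => (a.2.1, a.1.1)) (by fun_prop))
        (PT.decide_or h0 (h0.comp (g := fun a : V × V => (a.2, a.1)) (by fun_prop))))
  have h3 : PT fun a : (Gr × ℕ) × V => decide (ok a.1.1.n a.1.1.adjB a.1.2 a.2) := by unfold ok; fun_prop
  have h4 : PT fun a => vs (g a) (len a) :=
    PT.filter (h3.comp (g := fun a : (Gr × Gr) × V => ((g a.1, len a.1), a.2)) (by unfold len; fun_prop))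
      (by unfold len; fun_prop)
  exact PT.mkGr h4 (PT.filter (h2.comp PT.snd') (by fun_prop))

lemma mem_vs {g : Gr} {L x} : x ∈ vs g L ↔ ok g.n g.adjB L x := by
  obtain ⟨a, u, v, k⟩ := x
  rw [vs, List.mem_filter, decide_eq_true_eq, and_iff_right_iff_imp]
  refine fun h => List.pair_mem_product.2 ⟨?_, List.pair_mem_product.2 ⟨?_, List.pair_mem_product.2 ⟨?_, ?_⟩⟩⟩ <;>
    simp only [ok, List.mem_range] at * <;> omega

def isoX (g : Gr) (L : ℕ) : (red g L).G ≃g XG g.n g.adjB L := (mkGrIso _ _).trans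
  ⟨Equiv.subtypeEquivRight fun _ => mem_vs, fun {x y} => by
    have h1 : (x.1, y.1) ∈ vs g L ×ˢ vs g L := List.pair_mem_product.2 ⟨x.2, y.2⟩
    have h2 : (y.1, x.1) ∈ vs g L ×ˢ vs g L := List.pair_mem_product.2 ⟨y.2, x.2⟩
    have h3 := (XG g.n g.adjB L).ne_of_adj (a := ⟨x.1, mem_vs.1 x.2⟩) (b := ⟨y.1, mem_vs.1 y.2⟩)
    change Ad x.1 y.1 → _ at h3
    change Ad x.1 y.1 ↔ _
    simp only [SimpleGraph.comap_adj, Function.Embedding.subtype_apply, SimpleGraph.fromRel_adj, List.mem_filter,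
      h1, h2, true_and, decide_eq_true_eq, Ad, ne_eq, Subtype.mk.injEq] at h3 ⊢
    grind⟩

lemma red_dim (g : Gr) {N : ℕ} (h : g.n * (3 * g.n + 2) ≤ N) : Dim3 (red g (30 * N + 10)).G := by
  let e := isoX g (30 * N + 10)
  have k (x y) (n : x ≠ y) : Gd (fun c => ky g.n N (e x).1 c < ky g.n N (e y).1 c)
      (fun c => ky g.n N (e y).1 c < ky g.n N (e x).1 c) ((red g (30 * N + 10)).G.Adj x y) := by
    have n' : (e x).1 ≠ (e y).1 := fun m => n (e.injective (Subtype.ext m))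
    rcases le_total (e x).1.1 (e y).1.1 with m | m
    · exact Gd.cg (pair h (e x).2 (e y).2 n' m) e.map_rel_iff.symm
    · have := Gd.cg (pair h (e y).2 (e x).2 n'.symm m) (e.map_rel_iff.symm.trans ((XG _ _ _).adj_comm _ _))
      exact ⟨fun a => (this.1 a).symm, fun a => (this.2 a).symm⟩
  exact dim3_of _ (fun x => ky g.n N (e x).1) (fun x y a => (k x y a.ne).1 a) fun x y n a => ((k x y n).2 a).1

def Hom (g h : Gr) (f f' : ℕ → ℕ) : Prop :=
  (∀ u < g.n, f u < h.n ∧ f' (f u) = u) ∧ ∀ u v, g.adjB u v = true → h.adjB (f u) (f v) = true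

lemma back {g h : Gr} {L} (hL : 12 ≤ L) (φ : XG g.n g.adjB L ≃g XG h.n h.adjB L) : Nonempty (g.G ≃g h.G) := by
  have k : ∀ {g h : Gr} (φ : XG g.n g.adjB L ≃g XG h.n h.adjB L),
      Hom g h (fun u => (raw φ (9, u, u, 5)).2.1) fun u => (raw φ.symm (9, u, u, 5)).2.1 := fun {g h} φ => by
    obtain ⟨a, b⟩ := half hL (is_raw hL φ) (is_raw hL φ.symm)
    refine ⟨a, fun u v m => ?_⟩
    have : u < g.n ∧ v < g.n ∧ u ≠ v := by simp [Gr.adjB] at m; exact ⟨m.1, m.2.1, m.2.2.1⟩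
    exact (b u this.1 v this.2.1 m).resolve_left fun c => this.2.2 (by rw [← (a u this.1).2, c, (a v this.2.1).2])
  obtain ⟨a, b⟩ := k φ
  obtain ⟨c, d⟩ := k φ.symm
  refine ⟨⟨⟨fun u => ⟨_, (a u u.2).1⟩, fun u => ⟨_, (c u u.2).1⟩, fun u => Fin.ext (a u u.2).2,
    fun u => Fin.ext (c u u.2).2⟩, fun {u v} => ?_⟩⟩
  rw [← Gr.adjB_iff, ← Gr.adjB_iff]
  exact ⟨fun m => by simpa only [Equiv.coe_fn_mk, (a u u.2).2, (a v v.2).2] using d _ _ m, b u v⟩

def mp (f : ℕ → ℕ) (x : V) : V := (x.1, f x.2.1, f x.2.2.1, x.2.2.2)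

lemma forth {g h : Gr} (L : ℕ) (e : g.G ≃g h.G) : Nonempty (XG g.n g.adjB L ≃g XG h.n h.adjB L) := by
  have : ∀ {g h : Gr} (e : g.G ≃g h.G), Hom g h (fun u => if k : u < g.n then e ⟨u, k⟩ else 0)
      fun u => if k : u < h.n then e.symm ⟨u, k⟩ else 0 := fun {g h} e =>
    ⟨fun u k => by simp [k], fun u v k => by
      have : u < g.n ∧ v < g.n := by simp [Gr.adjB] at k; exact ⟨k.1, k.2.1⟩
      simp only [this, dif_pos, h.adjB_iff, e.map_rel_iff]
      exact (g.adjB_iff ⟨u, _⟩ ⟨v, _⟩).1 k⟩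
  have a := this e
  have b := this e.symm
  have k : ∀ {g h : Gr} {f f'}, Hom g h f f' → ∀ x, ok g.n g.adjB L x → ok h.n h.adjB L (mp f x) ∧ mp f' (mp f x) = x :=
    fun a x hx => by
      have := a.1 _ hx.1
      have := a.1 _ hx.2.1
      have := a.2 x.2.1 x.2.2.1
      simp only [ok, mp, Prod.ext_iff] at *; grind
  refine ⟨⟨⟨fun x => ⟨_, (k a _ x.2).1⟩, fun x => ⟨_, (k b _ x.2).1⟩, fun x => Subtype.ext (k a _ x.2).2,
    fun x => Subtype.ext (k b _ x.2).2⟩, fun {x y} => ?_⟩⟩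
  have c1 := (k a _ x.2).2
  have c2 := (k a _ y.2).2
  change Ad (mp _ x.1) (mp _ y.1) ↔ Ad x.1 y.1
  revert c1 c2
  generalize (fun u => if k : u < g.n then (e ⟨u, k⟩).1 else 0) = f
  generalize (fun u => if k : u < h.n then (e.symm ⟨u, k⟩).1 else 0) = f'
  simp only [Ad, T1, mp, Prod.ext_iff]
  grind

theorem red_iff (g h : Gr) {L} (hL : 12 ≤ L) : Nonempty (g.G ≃g h.G) ↔ Nonempty ((red g L).G ≃g (red h L).G) :=
  ⟨fun ⟨e⟩ => (forth L e).map fun k => (isoX g L).trans (k.trans (isoX h L).symm),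
    fun ⟨e⟩ => back hL ((isoX g L).symm.trans (e.trans (isoX h L)))⟩

end Pool.Agent.H.MP_89b4f4_co
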